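import Pool.Agent.Helper40_Dio.AStmt

/-! # DIO (MP_9ca527_nt): modules SZ1 and SZ2 (sizes of the indices). -/

set_option autoImplicit false

namespace Pool.Agent.DIO.H34

open Real Pool.Agent.DIO

/-- explicit formula -/
lemma sqg_formula (a c s z0 x0 : ℤ) (p u : ℝ) (hp : p ^ 2 = a) (hu : u ^ 2 = c) (m : ℕ) :
    ((sqg a c s z0 x0 m).1 : ℝ) * p + ((sqg a c s z0 x0 m).2 : ℝ) * u
      = (z0 * p + x0 * u) * ((s : ℝ) + p * u) ^ m ∧
    ((sqg a c s z0 x0 m).1 : ℝ) * p - ((sqg a c s z0 x0 m).2 : ℝ) * u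
      = (z0 * p - x0 * u) * ((s : ℝ) - p * u) ^ m := by
  induction m with
  | zero => simp [sqg]
  | succ m ih =>
    obtain ⟨h1, h2⟩ := ih
    simp only [sqg]
    push_cast
    constructor
    · rw [pow_succ, ← mul_assoc, ← h1, ← hp, ← hu]; ring
    · rw [pow_succ, ← mul_assoc, ← h2, ← hp, ← hu]; ring

/-- real data of an Euler triple -/
structure RD (a b c r : ℕ) (p q u α α' β β' ρ ρ' : ℝ) : Prop where
  hp : p ^ 2 = a
  hq : q ^ 2 = b
  hu : u ^ 2 = c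
  p1 : 1 ≤ p
  pq : p < q
  b2 : 3 ≤ q ^ 2
  upq : p + q < u
  u2q : u < 2 * q
  c8 : 8 ≤ u ^ 2
  hα : α = (a + r : ℝ) + p * u
  hα' : α' = (a + r : ℝ) - p * u
  hβ : β = (b + r : ℝ) + q * u
  hβ' : β' = (b + r : ℝ) - q * u
  hρ : ρ = (r : ℝ) + p * q
  hρ' : ρ' = (r : ℝ) - p * q
  mα : α * α' = 1
  mβ : β * β' = 1
  mρ : ρ * ρ' = 1
  gα : 2 * (p * u) < α
  gβ : 2 * (q * u) < β
  lβ : β < 2 * u ^ 2
  gρ : 2 * (p * q) < ρ
  αβ : α ≤ β
  ρβ : ρ ≤ β
  ρ1 : 1 ≤ ρ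
  α1 : 1 ≤ α
  β1 : 1 ≤ β
  α'0 : 0 < α'
  β'0 : 0 < β'
  ρ'0 : 0 < ρ'
  α'1 : α' ≤ 1
  β'1 : β' ≤ 1
  ρ'1 : ρ' ≤ 1
  ea : alp a c (a + r) = α
  eb : alp b c (b + r) = β
  er : alp a b r = ρ

lemma inv_le_one {x y : ℝ} (hx : 1 ≤ x) (hy : 0 < y) (h : x * y = 1) : y ≤ 1 := by
  rw [← h]; exact le_mul_of_one_le_left hy.le hx

lemma exists_rd {a b c r : ℕ} (h : Euler a b c r) :
    ∃ p q u α α' β β' ρ ρ' : ℝ, RD a b c r p q u α α' β β' ρ ρ' := by
  obtain ⟨ha, hab, hr, hc⟩ := h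
  have har : a < r := by
    by_contra h1
    push Not at h1
    have h2 : r * r ≤ a * b := Nat.mul_le_mul h1 (by omega)
    omega
  have hrb : r < b := by
    by_contra h1
    push Not at h1
    have h2 : b * b ≤ r * r := Nat.mul_le_mul h1 h1
    have h3 : (a + 1) * b ≤ b * b := Nat.mul_le_mul_right b hab
    have h4 : (a + 1) * b = a * b + b := by ring
    omega
  have hb3 : 3 ≤ b := by
    rcases Nat.lt_or_ge b 3 with h3 | h3
    · exfalso
      have hb2 : b = 2 := by omega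
      have ha1 : a = 1 := by omega
      subst hb2; subst ha1
      have : r < 2 := by omega
      interval_cases r <;> omega
    · exact h3
  have hr2 : 2 ≤ r := by omega
  have hc8 : 8 ≤ c := by omega
  have haR : (1 : ℝ) ≤ a := by exact_mod_cast ha
  have habR : (a : ℝ) < b := by exact_mod_cast hab
  have hb3R : (3 : ℝ) ≤ b := by exact_mod_cast hb3
  have hrR : (r : ℝ) * r = a * b + 1 := by exact_mod_cast hr
  have hcR : (c : ℝ) = a + b + 2 * r := by exact_mod_cast hc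
  have hr2R : (2 : ℝ) ≤ r := by exact_mod_cast hr2
  have harR : (a : ℝ) + 1 ≤ r := by exact_mod_cast har
  have hrbR : (r : ℝ) + 1 ≤ b := by exact_mod_cast hrb
  have hc8R : (8 : ℝ) ≤ c := by exact_mod_cast hc8
  have hp : √(a : ℝ) ^ 2 = a := Real.sq_sqrt (by positivity)
  have hq : √(b : ℝ) ^ 2 = b := Real.sq_sqrt (by positivity)
  have hu : √(c : ℝ) ^ 2 = c := Real.sq_sqrt (by positivity)
  have p1 : 1 ≤ √(a : ℝ) := by
    rw [show (1 : ℝ) = √1 by simp]; exact Real.sqrt_le_sqrt haR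
  have pq : √(a : ℝ) < √(b : ℝ) := Real.sqrt_lt_sqrt (by positivity) habR
  have u0 : 0 < √(c : ℝ) := Real.sqrt_pos.2 (by linarith)
  have q0 : 0 < √(b : ℝ) := by linarith
  have hpq : √(a : ℝ) * √(b : ℝ) < r := by
    have h1 : (√(a : ℝ) * √(b : ℝ)) ^ 2 < (r : ℝ) ^ 2 := by
      rw [mul_pow, hp, hq]; linarith
    exact lt_of_pow_lt_pow_left₀ 2 (by positivity) h1
  have upq : √(a : ℝ) + √(b : ℝ) < √(c : ℝ) := by
    have h1 : (√(a : ℝ) + √(b : ℝ)) ^ 2 < √(c : ℝ) ^ 2 := by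
      rw [hu, hcR, add_sq, hp, hq]; linarith
    exact lt_of_pow_lt_pow_left₀ 2 (by positivity) h1
  have u2q : √(c : ℝ) < 2 * √(b : ℝ) := by
    have h1 : √(c : ℝ) ^ 2 < (2 * √(b : ℝ)) ^ 2 := by
      rw [hu, mul_pow, hq, hcR]; linarith
    exact lt_of_pow_lt_pow_left₀ 2 (by positivity) h1
  have sa : ((a : ℝ) + r) ^ 2 = a * c + 1 := by rw [hcR]; linear_combination hrR
  have sb : ((b : ℝ) + r) ^ 2 = b * c + 1 := by rw [hcR]; linear_combination hrR
  have mα : ((a + r : ℝ) + √(a : ℝ) * √(c : ℝ)) * ((a + r : ℝ) - √(a : ℝ) * √(c : ℝ)) = 1 := by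
    have : ((a + r : ℝ) + √(a : ℝ) * √(c : ℝ)) * ((a + r : ℝ) - √(a : ℝ) * √(c : ℝ))
      = ((a : ℝ) + r) ^ 2 - √(a : ℝ) ^ 2 * √(c : ℝ) ^ 2 := by ring
    rw [this, sa, hp, hu]; ring
  have mβ : ((b + r : ℝ) + √(b : ℝ) * √(c : ℝ)) * ((b + r : ℝ) - √(b : ℝ) * √(c : ℝ)) = 1 := by
    have : ((b + r : ℝ) + √(b : ℝ) * √(c : ℝ)) * ((b + r : ℝ) - √(b : ℝ) * √(c : ℝ))
      = ((b : ℝ) + r) ^ 2 - √(b : ℝ) ^ 2 * √(c : ℝ) ^ 2 := by ring
    rw [this, sb, hq, hu]; ring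
  have mρ : ((r : ℝ) + √(a : ℝ) * √(b : ℝ)) * ((r : ℝ) - √(a : ℝ) * √(b : ℝ)) = 1 := by
    have : ((r : ℝ) + √(a : ℝ) * √(b : ℝ)) * ((r : ℝ) - √(a : ℝ) * √(b : ℝ))
      = (r : ℝ) * r - √(a : ℝ) ^ 2 * √(b : ℝ) ^ 2 := by ring
    rw [this, hrR, hp, hq]; ring
  have A1 : 1 ≤ (a + r : ℝ) + √(a : ℝ) * √(c : ℝ) := by
    have := mul_pos (show 0 < √(a : ℝ) by linarith) u0
    linarith
  have B1 : 1 ≤ (b + r : ℝ) + √(b : ℝ) * √(c : ℝ) := by
    have := mul_pos q0 u0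
    linarith
  have R1 : 1 ≤ (r : ℝ) + √(a : ℝ) * √(b : ℝ) := by
    have := mul_pos (show 0 < √(a : ℝ) by linarith) q0
    linarith
  have A0 : 0 < (a + r : ℝ) - √(a : ℝ) * √(c : ℝ) := by
    by_contra hcon
    push Not at hcon
    have := mul_nonpos_of_nonneg_of_nonpos (show 0 ≤ (a + r : ℝ) + √(a : ℝ) * √(c : ℝ) by linarith)
      hcon
    linarith
  have B0 : 0 < (b + r : ℝ) - √(b : ℝ) * √(c : ℝ) := by
    by_contra hcon
    push Not at hcon
    have := mul_nonpos_of_nonneg_of_nonpos (show 0 ≤ (b + r : ℝ) + √(b : ℝ) * √(c : ℝ) by linarith)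
      hcon
    linarith
  have R0 : 0 < (r : ℝ) - √(a : ℝ) * √(b : ℝ) := by linarith
  refine ⟨√(a : ℝ), √(b : ℝ), √(c : ℝ), _, _, _, _, _, _,
    { hp := hp, hq := hq, hu := hu, p1 := p1, pq := pq, b2 := by rw [hq]; exact hb3R,
      upq := upq, u2q := u2q, c8 := by rw [hu]; exact hc8R,
      hα := rfl, hα' := rfl, hβ := rfl, hβ' := rfl, hρ := rfl, hρ' := rfl,
      mα := mα, mβ := mβ, mρ := mρ,
      gα := by linarith, gβ := by linarith,
      lβ := by rw [hu]; linarith [hcR],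
      gρ := by linarith,
      αβ := ?_, ρβ := ?_, ρ1 := R1, α1 := A1, β1 := B1, α'0 := A0, β'0 := B0, ρ'0 := R0,
      α'1 := inv_le_one A1 A0 mα, β'1 := inv_le_one B1 B0 mβ, ρ'1 := inv_le_one R1 R0 mρ,
      ea := ?_, eb := ?_, er := ?_ }⟩
  · have := mul_lt_mul_of_pos_right pq u0
    linarith
  · have : √(a : ℝ) * √(b : ℝ) ≤ √(b : ℝ) * √(c : ℝ) := by
      rw [mul_comm]; exact mul_le_mul_of_nonneg_left (by linarith) q0.le
    linarith
  · rw [alp]; push_cast; rw [Real.sqrt_mul (by positivity)]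
  · rw [alp]; push_cast; rw [Real.sqrt_mul (by positivity)]
  · rw [alp]; push_cast; rw [Real.sqrt_mul (by positivity)]


/-- the consequences of `Meet0` in the real notation -/
structure RM (p q u α α' β β' : ℝ) (x y z : ℤ) (m n : ℕ) (ε ε' : ℤ) : Prop where
  z1 : 2 * (z : ℝ) * p = (u + ε * p) * α ^ m - (u - ε * p) * α' ^ m
  z2 : 2 * (z : ℝ) * q = (u + ε' * q) * β ^ n - (u - ε' * q) * β' ^ n
  y2 : 2 * (y : ℝ) * u = (u + ε' * q) * β ^ n + (u - ε' * q) * β' ^ n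
  eps : (ε : ℝ) = 1 ∨ (ε : ℝ) = -1
  eps' : (ε' : ℝ) = 1 ∨ (ε' : ℝ) = -1

lemma rm_of {a b c r : ℕ} {p q u α α' β β' ρ ρ' : ℝ} (h : RD a b c r p q u α α' β β' ρ ρ')
    {x y z : ℤ} {m n : ℕ} {ε ε' : ℤ} (hm : Meet0 a b c r x y z m n ε ε') :
    RM p q u α α' β β' x y z m n ε ε' := by
  have e1 := sqg_formula (a : ℤ) c ((a : ℤ) + r) ε 1 p u (by rw [h.hp]; simp)
    (by rw [h.hu]; simp) m
  have e2 := sqg_formula (b : ℤ) c ((b : ℤ) + r) ε' 1 q u (by rw [h.hq]; simp)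
    (by rw [h.hu]; simp) n
  have h1 := hm.e1
  have h2 := hm.e2
  rw [h1] at e1
  rw [h2] at e2
  simp only [Int.cast_add, Int.cast_natCast, Int.cast_one, one_mul] at e1 e2
  rw [← h.hα, ← h.hα'] at e1
  rw [← h.hβ, ← h.hβ'] at e2
  obtain ⟨e1a, e1b⟩ := e1
  obtain ⟨e2a, e2b⟩ := e2
  have hε : (ε : ℝ) = 1 ∨ (ε : ℝ) = -1 := by
    rcases hm.hε with h | h <;> [left; right] <;> rw [h] <;> simp
  have hε' : (ε' : ℝ) = 1 ∨ (ε' : ℝ) = -1 := by
    rcases hm.par with ⟨_, _, h3⟩ | ⟨_, _, h3⟩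
    · rw [h3]; exact hε
    · rw [h3]; push_cast
      rcases hε with h | h
      · right; rw [h]
      · left; rw [h]; norm_num
  exact ⟨by linarith, by linarith, by linarith, hε, hε'⟩

lemma pow_bnd {x : ℝ} (h0 : 0 < x) (h1 : x ≤ 1) (n : ℕ) : 0 < x ^ n ∧ x ^ n ≤ 1 :=
  ⟨pow_pos h0 n, pow_le_one₀ h0.le h1⟩

lemma eps_le {e v w : ℝ} (h : e = 1 ∨ e = -1) (hv : 0 ≤ v) : w - v ≤ w + e * v ∧ w + e * v ≤ w + v
    ∧ w - v ≤ w - e * v ∧ w - e * v ≤ w + v := by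
  rcases h with h | h <;> rw [h] <;> refine ⟨?_, ?_, ?_, ?_⟩ <;> linarith

/-- `α^m ≤ 8 β^n` -/
lemma sz_five {a b c r : ℕ} {p q u α α' β β' ρ ρ' : ℝ} (h : RD a b c r p q u α α' β β' ρ ρ')
    {x y z : ℤ} {m n : ℕ} {ε ε' : ℤ} (g : RM p q u α α' β β' x y z m n ε ε') :
    α ^ m ≤ 8 * β ^ n := by
  have hp0 : 0 < p := by linarith [h.p1]
  have hq0 : 0 < q := by linarith [h.pq]
  have hu0 : 0 < u := by linarith [h.upq]
  obtain ⟨a1, a2, a3, a4⟩ := eps_le (w := u) g.eps hp0.le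
  obtain ⟨b1, b2, b3, b4⟩ := eps_le (w := u) g.eps' hq0.le
  obtain ⟨c1, c2⟩ := pow_bnd h.α'0 h.α'1 m
  obtain ⟨d1, d2⟩ := pow_bnd h.β'0 h.β'1 n
  have hA : 1 ≤ α ^ m := one_le_pow₀ h.α1
  have hB : 1 ≤ β ^ n := one_le_pow₀ h.β1
  -- 2 z q ≤ 2 u β^n
  have s1 : 2 * (z : ℝ) * q ≤ (u + q) * β ^ n := by
    rw [g.z2]
    have t1 : (u + ε' * q) * β ^ n ≤ (u + q) * β ^ n := by gcongr
    have t2 : 0 ≤ (u - ε' * q) * β' ^ n := mul_nonneg (by linarith [h.upq]) d1.le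
    linarith
  have s2 : (u - p) * α ^ m - (u + p) * α' ^ m ≤ 2 * (z : ℝ) * p := by
    rw [g.z1]
    have t1 : (u - p) * α ^ m ≤ (u + ε * p) * α ^ m := by gcongr
    have t2 : (u - ε * p) * α' ^ m ≤ (u + p) * α' ^ m := by gcongr
    linarith
  -- multiply
  have s3 : q * ((u - p) * α ^ m - (u + p) * α' ^ m) ≤ p * ((u + q) * β ^ n) := by
    have t1 := mul_le_mul_of_nonneg_left s2 hq0.le
    have t2 := mul_le_mul_of_nonneg_left s1 hp0.le
    linarith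
  have s4 : (u - p) * α ^ m - (u + p) * α' ^ m ≤ (u + q) * β ^ n := by
    by_contra hcon
    push Not at hcon
    have t1 := mul_lt_mul_of_pos_left hcon hq0
    have t2 : p * ((u + q) * β ^ n) ≤ q * ((u + q) * β ^ n) := by
      apply mul_le_mul_of_nonneg_right h.pq.le; positivity
    linarith
  have s5 : q * α ^ m ≤ (u - p) * α ^ m := by
    apply mul_le_mul_of_nonneg_right _ (by linarith); linarith [h.upq]
  have s6 : (u + p) * α' ^ m ≤ (3 * q) * 1 := by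
    apply mul_le_mul _ c2 c1.le (by positivity); linarith [h.u2q, h.pq]
  have s7 : (u + q) * β ^ n ≤ (3 * q) * β ^ n := by
    apply mul_le_mul_of_nonneg_right _ (by linarith); linarith [h.u2q]
  have s8 : q * α ^ m ≤ q * (3 + 3 * β ^ n) := by linarith
  have s9 : α ^ m ≤ 3 + 3 * β ^ n := le_of_mul_le_mul_left s8 hq0
  linarith

/-- `n ≤ m` -/
lemma sz_two {a b c r : ℕ} {p q u α α' β β' ρ ρ' : ℝ} (h : RD a b c r p q u α α' β β' ρ ρ')
    {x y z : ℤ} {m n : ℕ} {ε ε' : ℤ} (g : RM p q u α α' β β' x y z m n ε ε') :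
    n ≤ m := by
  by_contra hcon
  push Not at hcon
  have hp0 : 0 < p := by linarith [h.p1]
  have hq0 : 0 < q := by linarith [h.pq]
  have hu0 : 0 < u := by linarith [h.upq]
  obtain ⟨a1, a2, a3, a4⟩ := eps_le (w := u) g.eps hp0.le
  obtain ⟨b1, b2, b3, b4⟩ := eps_le (w := u) g.eps' hq0.le
  obtain ⟨c1, c2⟩ := pow_bnd h.α'0 h.α'1 m
  obtain ⟨d1, d2⟩ := pow_bnd h.β'0 h.β'1 n
  have hBm : 1 ≤ β ^ m := one_le_pow₀ h.β1
  have hB : 1 ≤ β ^ n := one_le_pow₀ h.β1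
  -- β'^n ≤ β'
  have d3 : β' ^ n ≤ β' := by
    calc β' ^ n ≤ β' ^ 1 := pow_le_pow_of_le_one h.β'0.le h.β'1 (by omega)
      _ = β' := pow_one _
  have s1 : p * β ^ n - 3 * q * β' ^ n ≤ 2 * (z : ℝ) * q := by
    rw [g.z2]
    have t1 : p * β ^ n ≤ (u + ε' * q) * β ^ n := by
      apply mul_le_mul_of_nonneg_right _ (by linarith); linarith [h.upq]
    have t2 : (u - ε' * q) * β' ^ n ≤ (3 * q) * β' ^ n := by
      apply mul_le_mul_of_nonneg_right _ (by linarith); linarith [h.u2q]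
    linarith
  have s2 : 2 * (z : ℝ) * p ≤ (u + p) * β ^ m := by
    rw [g.z1]
    have t0 : α ^ m ≤ β ^ m := pow_le_pow_left₀ (by linarith [h.α1]) h.αβ m
    have t1 : (u + ε * p) * α ^ m ≤ (u + p) * β ^ m := by
      apply mul_le_mul a2 t0 (by linarith [one_le_pow₀ (n := m) h.α1]) (by positivity)
    have t2 : 0 ≤ (u - ε * p) * α' ^ m := mul_nonneg (by linarith [h.upq]) c1.le
    linarith
  have s3 : p * (p * β ^ n - 3 * q * β' ^ n) ≤ q * ((u + p) * β ^ m) := by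
    have t1 := mul_le_mul_of_nonneg_left s1 hp0.le
    have t2 := mul_le_mul_of_nonneg_left s2 hq0.le
    linarith
  -- β^n ≥ 2 q u β^m
  have s4 : 2 * (q * u) * β ^ m ≤ β ^ n := by
    calc 2 * (q * u) * β ^ m ≤ β * β ^ m := by
          apply mul_le_mul_of_nonneg_right h.gβ.le (by linarith)
      _ = β ^ (m + 1) := by ring
      _ ≤ β ^ n := pow_le_pow_right₀ h.β1 hcon
  have pp : 1 ≤ p * p := by nlinarith [h.p1]
  have s5 : 2 * (q * u) * β ^ m ≤ (p * p) * β ^ n := by nlinarith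
  -- 3 p β' ≤ q
  have s6 : 3 * p * (β' * (q * u)) ≤ q * (q * u) := by
    have t1 : β' * (q * u) ≤ 1 := by nlinarith [h.mβ, h.gβ, h.β'0]
    have t2 : 3 * p ≤ q * (q * u) := by nlinarith [h.b2, h.upq]
    nlinarith
  have s7 : 3 * p * β' ≤ q := by
    have : 0 < q * u := by positivity
    nlinarith
  have s8 : q * ((u - p) * β ^ m) ≤ q * (3 * p * β' ^ n) := by nlinarith
  have s9 : (u - p) * β ^ m ≤ 3 * p * β' ^ n := le_of_mul_le_mul_left s8 hq0
  have s10 : 3 * p * β' ^ n ≤ q := le_trans (by gcongr) s7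
  have s11 : u - p ≤ (u - p) * β ^ m := le_mul_of_one_le_right (by linarith [h.upq]) hBm
  linarith [h.upq]

/-- `m ≤ 2 n` -/
lemma sz_three {a b c r : ℕ} {p q u α α' β β' ρ ρ' : ℝ} (h : RD a b c r p q u α α' β β' ρ ρ')
    {x y z : ℤ} {m n : ℕ} {ε ε' : ℤ} (g : RM p q u α α' β β' x y z m n ε ε') (hn : 1 ≤ n) :
    m ≤ 2 * n := by
  by_contra hcon
  push Not at hcon
  have hp0 : 0 < p := by linarith [h.p1]
  have hq0 : 0 < q := by linarith [h.pq]
  have hu0 : 0 < u := by linarith [h.upq]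
  obtain ⟨a1, a2, a3, a4⟩ := eps_le (w := u) g.eps hp0.le
  obtain ⟨b1, b2, b3, b4⟩ := eps_le (w := u) g.eps' hq0.le
  obtain ⟨c1, c2⟩ := pow_bnd h.α'0 h.α'1 m
  obtain ⟨d1, d2⟩ := pow_bnd h.β'0 h.β'1 n
  have hα0 : 0 < α := by linarith [h.α1]
  have hβ0 : 0 < β := by linarith [h.β1]
  have s1 : 2 * (z : ℝ) * q ≤ (2 * u) * β ^ n := by
    rw [g.z2]
    have t1 : (u + ε' * q) * β ^ n ≤ (2 * u) * β ^ n := by
      apply mul_le_mul_of_nonneg_right _ (by positivity); linarith [h.upq]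
    have t2 : 0 ≤ (u - ε' * q) * β' ^ n := mul_nonneg (by linarith [h.upq]) d1.le
    linarith
  have s2 : q * α ^ m - 2 * u ≤ 2 * (z : ℝ) * p := by
    rw [g.z1]
    have t1 : q * α ^ m ≤ (u + ε * p) * α ^ m := by
      apply mul_le_mul_of_nonneg_right _ (by positivity); linarith [h.upq]
    have t2 : (u - ε * p) * α' ^ m ≤ (2 * u) * 1 := by
      apply mul_le_mul _ c2 c1.le (by positivity); linarith [h.upq]
    linarith
  have s3 : q * (q * α ^ m - 2 * u) ≤ p * ((2 * u) * β ^ n) := by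
    have t1 := mul_le_mul_of_nonneg_left s2 hq0.le
    have t2 := mul_le_mul_of_nonneg_left s1 hp0.le
    linarith
  -- α² ≥ 2 β and α² ≥ 32
  have u2 : 4 * u ^ 2 ≤ α ^ 2 := by
    have t1 : 2 * u ≤ 2 * (p * u) := by nlinarith [h.p1]
    have t2 : 2 * u ≤ α := by linarith [h.gα]
    nlinarith
  have hβα : 2 * β ≤ α ^ 2 := by linarith [h.lβ]
  have X32 : 32 ≤ α ^ 2 := by linarith [h.c8]
  set X : ℝ := (α ^ 2) ^ n with hX
  have hX1 : 32 ≤ X := by
    calc (32 : ℝ) ≤ α ^ 2 := X32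
      _ = (α ^ 2) ^ 1 := (pow_one _).symm
      _ ≤ (α ^ 2) ^ n := pow_le_pow_right₀ (by linarith) hn
  have hβX : 2 * β ^ n ≤ X := by
    calc 2 * β ^ n ≤ 2 ^ n * β ^ n := by
          apply mul_le_mul_of_nonneg_right _ (by positivity)
          calc (2 : ℝ) = 2 ^ 1 := (pow_one _).symm
            _ ≤ 2 ^ n := pow_le_pow_right₀ (by norm_num) hn
      _ = (2 * β) ^ n := by rw [mul_pow]
      _ ≤ (α ^ 2) ^ n := pow_le_pow_left₀ (by positivity) hβα n
  have hαm : 2 * (p * u) * X ≤ α ^ m := by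
    calc 2 * (p * u) * X ≤ α * X := by
          apply mul_le_mul_of_nonneg_right h.gα.le (by positivity)
      _ = α ^ (2 * n + 1) := by rw [hX, ← pow_mul]; ring
      _ ≤ α ^ m := pow_le_pow_right₀ h.α1 hcon
  -- q² 2 p u X - 2 q u ≤ p u X
  have s4 : q ^ 2 * (2 * (p * u) * X) - 2 * (q * u) ≤ p * u * X := by
    have t1 : q ^ 2 * (2 * (p * u) * X) ≤ q ^ 2 * α ^ m := by
      apply mul_le_mul_of_nonneg_left hαm (by positivity)
    have t2 : p * ((2 * u) * β ^ n) ≤ p * u * X := by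
      have := mul_le_mul_of_nonneg_left hβX (show 0 ≤ p * u by positivity)
      linarith
    have t3 : q * (q * α ^ m - 2 * u) = q ^ 2 * α ^ m - 2 * (q * u) := by ring
    linarith
  -- factor
  have s5 : (2 * q ^ 2 - 1) * (p * u * X) ≤ 2 * (q * u) := by linarith
  have s6 : u * X ≤ p * u * X := by
    have : u * X ≤ p * (u * X) := le_mul_of_one_le_left (by positivity) h.p1
    linarith
  have s7 : 5 * (u * 32) ≤ (2 * q ^ 2 - 1) * (p * u * X) := by
    apply mul_le_mul (by linarith [h.b2]) _ (by positivity) (by linarith [h.b2])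
    calc u * 32 ≤ u * X := by gcongr
      _ ≤ p * u * X := s6
  -- (2q²-1)(uX) ≥ q² * u * 32 ≥ 2 q u ...
  have s8 : q ^ 2 * (u * 32) ≤ (2 * q ^ 2 - 1) * (p * u * X) := by
    apply mul_le_mul (by linarith [h.b2]) _ (by positivity) (by linarith [h.b2])
    calc u * 32 ≤ u * X := by gcongr
      _ ≤ p * u * X := s6
  have hq1 : 1 ≤ q := by linarith [h.p1, h.pq]
  have s9 : q * u ≤ q ^ 2 * u := by nlinarith [mul_pos hq0 hu0]
  nlinarith [mul_pos hq0 hu0]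

/-- the exceptional case is impossible -/
lemma sz_four {a b c r : ℕ} (h : Euler a b c r) {x y z : ℤ} {ε' : ℤ}
    (hm : Meet0 a b c r x y z 4 2 (-1) ε') : False := by
  obtain ⟨ha, hab, hr, hc⟩ := h
  have hε' : ε' = -1 := by
    rcases hm.par with ⟨_, _, h3⟩ | ⟨h3, _, _⟩
    · exact h3
    · exact absurd h3 (by decide)
  subst hε'
  have e1 := hm.e1
  have e2 := hm.e2
  simp only [sqg, Prod.mk.injEq] at e1 e2
  obtain ⟨e1, -⟩ := e1
  obtain ⟨e2, -⟩ := e2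
  have ha' : (0 : ℤ) < a := by exact_mod_cast ha
  have hab' : (a : ℤ) < b := by exact_mod_cast hab
  have hr' : (r : ℤ) * r = a * b + 1 := by exact_mod_cast hr
  have hc' : (c : ℤ) = a + b + 2 * r := by exact_mod_cast hc
  have har : (a : ℤ) < r := by nlinarith
  -- v2 = 2 c r - 1
  set s : ℤ := (a : ℤ) + r with hs
  have hss : s * s = a * c + 1 := by rw [hs, hc']; linear_combination hr'
  have hw : z = 2 * c * r - 1 := by
    rw [← e2, hc']; linear_combination (-1 : ℤ) * hr'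
  have hc0 : (0 : ℤ) < c := by rw [hc']; positivity
  have hsc : s < c := by rw [hs, hc']; linarith
  have hs1 : 1 < s := by rw [hs]; linarith
  set X : ℤ := s * (s * 1 + a * -1) + a * (s * -1 + c * 1) with hX
  have hXpos : 0 < X := by
    have t1 : 0 < s * (s * 1 + a * -1) := by
      apply mul_pos (by linarith); linarith
    have t2 : 0 < (a : ℤ) * (s * -1 + c * 1) := by
      apply mul_pos ha'; linarith
    linarith
  have hz2 : s * (s * -1 + c * 1) + c * (s * 1 + a * -1) = z := by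
    rw [hw, hc', hs]; linear_combination (-1 : ℤ) * hr'
  rw [hz2] at e1
  have hz := hm.hz
  have t1 : 0 < s * c * X := by positivity
  have t2 : s * s * z + a * c * z + 2 * (s * c * X) = z := by
    linear_combination e1
  have t3 : z < s * s * z := by
    have : 1 < s * s := by nlinarith
    nlinarith
  have t4 : 0 < (a : ℤ) * c * z := by positivity
  linarith

/-- SZ1 -/
theorem sz1 : Sz1Statement := by
  intro a b c r x y z m n ε ε' h hm
  obtain ⟨p, q, u, α, α', β, β', ρ, ρ', hd⟩ := exists_rd h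
  have g := rm_of hd hm
  have hn : 1 ≤ n := by
    rcases Nat.eq_zero_or_pos n with h0 | h0
    · exfalso
      have e2 := hm.e2
      subst h0
      simp only [sqg, Prod.mk.injEq] at e2
      have hz := hm.hz
      rcases hm.hε with h1 | h1 <;> rcases hm.par with ⟨_, _, h3⟩ | ⟨_, _, h3⟩ <;>
        rw [h3, h1] at e2 <;> omega
    · exact h0
  refine ⟨hn, sz_two hd g, sz_three hd g hn, ?_, ?_⟩
  · rintro ⟨rfl, rfl, rfl⟩
    exact sz_four h hm
  · rw [hd.ea, hd.eb]; exact sz_five hd g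

/-- SZ2 -/
theorem sz2 : Sz2Statement := by
  intro a b c r x y z l m n ε ε' h hm hl hn
  obtain ⟨p, q, u, α, α', β, β', ρ, ρ', hd⟩ := exists_rd h
  have g := rm_of hd hm
  have hp0 : 0 < p := by linarith [hd.p1]
  have hq0 : 0 < q := by linarith [hd.pq]
  have hu0 : 0 < u := by linarith [hd.upq]
  have e1 := sqg_formula (a : ℤ) b (r : ℤ) 1 1 p q (by rw [hd.hp]; simp)
    (by rw [hd.hq]; simp) l
  rw [hl] at e1
  simp only [Int.cast_natCast, Int.cast_one, one_mul] at e1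
  rw [← hd.hρ, ← hd.hρ'] at e1
  obtain ⟨e1a, e1b⟩ := e1
  have hy : 2 * (y : ℝ) * p = (p + q) * ρ ^ l - (q - p) * ρ' ^ l := by linarith
  obtain ⟨r1, r2⟩ := pow_bnd hd.ρ'0 hd.ρ'1 l
  obtain ⟨d1, d2⟩ := pow_bnd hd.β'0 hd.β'1 n
  have hB : 1 ≤ β ^ n := one_le_pow₀ hd.β1
  have hR : 1 ≤ ρ ^ l := one_le_pow₀ hd.ρ1
  obtain ⟨b1, b2, b3, b4⟩ := eps_le (w := u) g.eps' hq0.le
  -- y ≤ β^n
  have y1 : (y : ℝ) ≤ β ^ n := by
    have : 2 * (y : ℝ) * u ≤ 2 * β ^ n * u := by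
      rw [g.y2]
      have t : (u - ε' * q) * β' ^ n ≤ (u - ε' * q) * β ^ n := by
        apply mul_le_mul_of_nonneg_left (by linarith) (by linarith [hd.upq])
      linarith
    nlinarith
  -- 2 y u ≥ p β^n
  have y2 : p * β ^ n ≤ 2 * (y : ℝ) * u := by
    rw [g.y2]
    have t1 : p * β ^ n ≤ (u + ε' * q) * β ^ n := by
      apply mul_le_mul_of_nonneg_right _ (by linarith); linarith [hd.upq]
    have t2 : 0 ≤ (u - ε' * q) * β' ^ n := mul_nonneg (by linarith [hd.upq]) d1.le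
    linarith
  have k1 : ρ ^ l ≤ 3 * β ^ n := by
    have t1 : (q - p) * ρ' ^ l ≤ q * 1 := by
      apply mul_le_mul (by linarith) r2 r1.le hq0.le
    have t2 : (p + q) * ρ ^ l ≤ (p + q) * (3 * β ^ n) := by
      have t3 : 2 * (y : ℝ) * p ≤ 2 * β ^ n * p := by
        apply mul_le_mul_of_nonneg_right _ hp0.le; linarith
      have t4 : q * 1 ≤ q * β ^ n := mul_le_mul_of_nonneg_left hB hq0.le
      have t5 : 0 < p * β ^ n := by positivity
      nlinarith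
    exact le_of_mul_le_mul_left t2 (by linarith)
  refine ⟨?_, ?_, ?_⟩
  · by_contra hcon
    push Not at hcon
    -- u² ρ^l ≥ β^n
    have t1 : 2 * (y : ℝ) * p ≤ (p + q) * ρ ^ l := by
      rw [hy]
      have : 0 ≤ (q - p) * ρ' ^ l := mul_nonneg (by linarith [hd.pq]) r1.le
      linarith
    have t2 : p * (p * β ^ n) ≤ u * ((p + q) * ρ ^ l) := by
      have t3 := mul_le_mul_of_nonneg_left t1 hu0.le
      have t4 := mul_le_mul_of_nonneg_left y2 hp0.le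
      linarith
    have t3 : u * ((p + q) * ρ ^ l) ≤ u * (u * ρ ^ l) := by
      apply mul_le_mul_of_nonneg_left _ hu0.le
      apply mul_le_mul_of_nonneg_right hd.upq.le (by linarith)
    have t4 : β ^ n ≤ p * (p * β ^ n) := by
      have pp : 1 ≤ p * p := by nlinarith [hd.p1]
      nlinarith
    have t5 : 2 * (q * u) * ρ ^ l ≤ β ^ n := by
      calc 2 * (q * u) * ρ ^ l ≤ β * β ^ l := by
            apply mul_le_mul hd.gβ.le (pow_le_pow_left₀ (by linarith [hd.ρ1]) hd.ρβ l)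
              (by linarith) (by linarith [hd.β1])
        _ = β ^ (l + 1) := by ring
        _ ≤ β ^ n := pow_le_pow_right₀ hd.β1 hcon
    have t6 : (u * u) * ρ ^ l < 2 * (q * u) * ρ ^ l := by
      apply mul_lt_mul_of_pos_right _ (by linarith)
      have := mul_lt_mul_of_pos_right hd.u2q hu0
      linarith
    linarith
  · by_contra hcon
    push Not at hcon
    -- ρ² ≥ u²
    have t1 : u ≤ ρ := by
      have := hd.gρ
      have t : 1 * q ≤ p * q := mul_le_mul_of_nonneg_right hd.p1 hq0.le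
      linarith [hd.u2q]
    have hρ1 : 1 < ρ := by
      have : 1 * q ≤ p * q := mul_le_mul_of_nonneg_right hd.p1 hq0.le
      linarith [hd.gρ, hd.p1, hd.pq]
    have hU8 : (8 : ℝ) ^ n ≤ (u ^ 2) ^ n := pow_le_pow_left₀ (by norm_num) hd.c8 n
    have t2 : (u ^ 2) ^ n * (u ^ 2) ^ n * ρ ≤ ρ ^ l := by
      calc (u ^ 2) ^ n * (u ^ 2) ^ n * ρ = u ^ (4 * n) * ρ := by
            rw [← pow_mul, ← pow_add]; ring_nf
        _ ≤ ρ ^ (4 * n) * ρ := by gcongr
        _ = ρ ^ (4 * n + 1) := by ring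
        _ ≤ ρ ^ l := pow_le_pow_right₀ hd.ρ1 hcon
    have t3 : 3 * β ^ n ≤ 3 * (2 ^ n * (u ^ 2) ^ n) := by
      rw [← mul_pow]
      apply mul_le_mul_of_nonneg_left _ (by norm_num)
      exact pow_le_pow_left₀ (by linarith [hd.β1]) hd.lβ.le n
    have t4 : (u ^ 2) ^ n * ((u ^ 2) ^ n * ρ) ≤ (u ^ 2) ^ n * (3 * 2 ^ n) := by linarith
    have t5 : (u ^ 2) ^ n * ρ ≤ 3 * 2 ^ n := le_of_mul_le_mul_left t4 (by positivity)
    have t6 : (8 : ℝ) ^ n = 4 ^ n * 2 ^ n := by rw [← mul_pow]; norm_num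
    have t7 : (4 : ℝ) ≤ 4 ^ n := by
      calc (4 : ℝ) = 4 ^ 1 := (pow_one _).symm
        _ ≤ 4 ^ n := pow_le_pow_right₀ (by norm_num) hn
    have t8 : (4 : ℝ) * 2 ^ n ≤ 8 ^ n := by
      rw [t6]; apply mul_le_mul_of_nonneg_right t7 (by positivity)
    have t9 : (u ^ 2) ^ n < (u ^ 2) ^ n * ρ := by
      have : 0 < (u ^ 2) ^ n := by positivity
      nlinarith
    have t10 : (0 : ℝ) < 2 ^ n := by positivity
    linarith
  · rw [hd.er, hd.eb]; exact k1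

end Pool.Agent.DIO.H34
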